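import Pool.Agent.Helper73.CG.Growth

set_option autoImplicit false

namespace Pool.Agent.Results.MP_216434_al.OutFiniteGrowth

/-- `normalCount G n` is the number of normal subgroups of `G` of (finite) index at most `n`. -/
noncomputable def normalCount (G : Type) [Group G] (n : ℕ) : ℕ :=
  Nat.card {H : Subgroup G // H.Normal ∧ H.FiniteIndex ∧ H.index ≤ n}

/-- `charCount G n` is the number of characteristic subgroups of `G` of (finite) index at most
`n`. -/
noncomputable def charCount (G : Type) [Group G] (n : ℕ) : ℕ :=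
  Nat.card {H : Subgroup G // H.Characteristic ∧ H.FiniteIndex ∧ H.index ≤ n}

/-- `g` has growth type `f`: the function `f` is nonnegative and there are real constants
`a, b > 0` such that `g n ≤ (f n) ^ a` for every `n ≥ 1` and `g n ≥ (f n) ^ b` for infinitely
many `n`. -/
def HasGrowthType (g : ℕ → ℕ) (f : ℕ → ℝ) : Prop :=
  (∀ n, 1 ≤ n → 0 ≤ f n) ∧ ∃ a b : ℝ, 0 < a ∧ 0 < b ∧
    (∀ n, 1 ≤ n → (g n : ℝ) ≤ f n ^ a) ∧ {n : ℕ | 1 ≤ n ∧ f n ^ b ≤ (g n : ℝ)}.Infinite

lemma normalCount_eq (G : Type) [Group G] (n : ℕ) :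
    normalCount G n = Nat.card (Helper73.CG.NS G n) := by
  apply Nat.card_congr
  exact Equiv.subtypeEquivRight (fun H => by rw [Subgroup.finiteIndex_iff])

lemma charCount_eq (G : Type) [Group G] (n : ℕ) :
    charCount G n = Nat.card (Helper73.CG.CS G n) := by
  apply Nat.card_congr
  exact Equiv.subtypeEquivRight (fun H => by rw [Subgroup.finiteIndex_iff])

/-- There is a finitely generated group with finite outer automorphism group for which no single
function is a growth type of both the number of characteristic and the number of normal subgroups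
of index at most `n`. -/
theorem result : ∃ (Γ : Type) (_ : Group Γ), Group.FG Γ ∧
    Finite (MulAut Γ ⧸ (MulAut.conj : Γ →* MulAut Γ).range) ∧
    ¬ ∃ f : ℕ → ℝ, HasGrowthType (charCount Γ) f ∧ HasGrowthType (normalCount Γ) f := by
  refine ⟨Helper73.CG.Gam Helper73.CG.par, inferInstance, Helper73.CG.Gam_fg,
    Helper73.CG.Gam_outFin.finite, ?_⟩
  rintro ⟨f, ⟨hf0, a1, b1, ha1, hb1, -, hinf⟩, ⟨-, a2, b2, ha2, hb2, hle, -⟩⟩
  obtain ⟨r, hr⟩ := exists_nat_gt (a2 / b1)
  obtain ⟨n0, hn0⟩ := Helper73.CG.gap Helper73.CG.par r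
  obtain ⟨n, ⟨hn1, hn2⟩, hn3⟩ := hinf.exists_gt n0
  obtain ⟨h1, h2⟩ := hn0 n hn3.le
  rw [← normalCount_eq, ← charCount_eq] at h1
  rw [← normalCount_eq] at h2
  have h0 := hf0 n hn1
  have h3 := hle n hn1
  have h4 : (2 : ℝ) ≤ normalCount (Helper73.CG.Gam Helper73.CG.par) n := by exact_mod_cast h2
  have hc : 1 < f n := by
    by_contra h
    push Not at h
    have := Real.rpow_le_one h0 h ha2.le
    linarith
  have h5 : f n ^ a2 < f n ^ (b1 * r) := by
    apply Real.rpow_lt_rpow_of_exponent_lt hc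
    rw [div_lt_iff₀ hb1] at hr
    linarith
  have h6 : f n ^ (b1 * r) = (f n ^ b1) ^ r := Real.rpow_mul_natCast h0 b1 r
  have h7 : (f n ^ b1) ^ r ≤ (charCount (Helper73.CG.Gam Helper73.CG.par) n : ℝ) ^ r :=
    pow_le_pow_left₀ (Real.rpow_nonneg h0 _) hn2 r
  have h8 : (charCount (Helper73.CG.Gam Helper73.CG.par) n : ℝ) ^ r ≤
      normalCount (Helper73.CG.Gam Helper73.CG.par) n := by exact_mod_cast h1
  linarith

end Pool.Agent.Results.MP_216434_al.OutFiniteGrowth
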